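import Mathlib
import Pool.Agent.H80.CapDefs
import Pool.Agent.H80.Cap

open Pool.Agent.H80.Cap

theorem Pool.Agent.Results.MP_cf1990_gt.ShearAnnuli.result :
    ∃ (c : Set ℂ → ENNReal) (φ : ℂ ≃ₜ ℂ) (V : Set ℂ), IsCapacity c ∧
      (∀ z, φ z = z + (|z.re| : ℝ) * Complex.I) ∧ PreservesSmall c φ ∧ IsOpen V ∧
      c (φ '' V) ≠ c V :=
  ⟨c, φ, V0, isCapacity, fun _ => rfl, preservesSmall, V0_open, differ⟩
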